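import Mathlib
import Pool.Agent.Helper17.TF.Step
import Pool.Agent.Helper9.TG.TreeDefs

/-!
# Module LD: the limiting system of two equations, any number of children
-/

namespace Pool.Agent.Helper17.TG

open Complex Finset Filter Topology
open Pool.Agent.Helper9.TB Pool.Agent.Helper9.TF Pool.Agent.Helper17.TF

/-- The weight `a` is large compared to `D` and `1 / ρ`. -/
def LargeW (ρ : ℝ) (D a : ℕ) : Prop := 8 * (1 + D) / ρ ≤ a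

theorem LargeW.big {ρ : ℝ} (hρ : 0 < ρ) (hρ1 : ρ ≤ 1 / 1000) {D a : ℕ} (ha : LargeW ρ D a) :
    8000 * (1 + D : ℝ) ≤ a := by
  have h1 : 8000 * (1 + D : ℝ) ≤ 8 * (1 + D) / ρ := by
    rw [le_div_iff₀ hρ]
    have : (0 : ℝ) < 1 + D := by positivity
    nlinarith
  exact h1.trans ha

theorem LargeW.big' {ρ : ℝ} (hρ : 0 < ρ) (hρ1 : ρ ≤ 1 / 1000) {D a : ℕ} (ha : LargeW ρ D a) :
    (8000 : ℝ) ≤ a := by
  have h1 := ha.big hρ hρ1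
  have : (0 : ℝ) ≤ D := Nat.cast_nonneg D
  linarith

/-- the points near `1 / a` are in the half ball -/
theorem nearD_half {ρ : ℝ} (hρ : 0 < ρ) (hρ1 : ρ ≤ 1 / 1000) {D a θ : ℕ} (hθ : θ ≤ D)
    (ha : LargeW ρ D a) {z : ℂ} (hz : ‖z - 1 / a‖ ≤ 2 * (1 + θ) / a ^ 2) : ‖z‖ ≤ ρ / 2 := by
  have h1 := ha.big hρ hρ1
  have hD : (0 : ℝ) ≤ D := Nat.cast_nonneg D
  have hθ' : (θ : ℝ) ≤ D := by exact_mod_cast hθ
  have h0 : (0 : ℝ) < a := by linarith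
  have h2 : ‖(1 / a : ℂ)‖ = 1 / a := by
    rw [norm_div, norm_one, Complex.norm_natCast]
  have h3 : ‖z‖ ≤ ‖z - 1 / a‖ + ‖(1 / a : ℂ)‖ := by
    calc ‖z‖ = ‖(z - 1 / a) + 1 / a‖ := by congr 1; ring
      _ ≤ _ := norm_add_le _ _
  have h4 : (2 : ℝ) * (1 + θ) / a ^ 2 ≤ 1 / a := by
    rw [div_le_div_iff₀ (by positivity) h0]
    have : 2 * (1 + (θ : ℝ)) ≤ a := by linarith
    nlinarith
  have h5 : (2 : ℝ) / a ≤ ρ / 2 := by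
    have h6 : 8 * (1 + (D : ℝ)) ≤ a * ρ := (div_le_iff₀ hρ).1 ha
    rw [div_le_div_iff₀ h0 (by norm_num)]
    linarith
  have h6 : (1 : ℝ) / a + 1 / a = 2 / a := by ring
  rw [h2] at h3
  linarith

theorem nearD_ball {ρ : ℝ} (hρ : 0 < ρ) (hρ1 : ρ ≤ 1 / 1000) {D a θ : ℕ} (hθ : θ ≤ D)
    (ha : LargeW ρ D a) {z : ℂ}
    (hz : ‖z - 1 / a‖ ≤ 2 * (1 + θ) / a ^ 2) : z ∈ Metric.ball (0 : ℂ) ρ := by
  rw [mem_ball_zero_iff]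
  linarith [nearD_half hρ hρ1 hθ ha hz]

theorem nearD_small {ρ : ℝ} (hρ : 0 < ρ) (hρ1 : ρ ≤ 1 / 1000) {D a θ : ℕ} (hθ : θ ≤ D)
    (ha : LargeW ρ D a) {z : ℂ}
    (hz : ‖z - 1 / a‖ ≤ 2 * (1 + θ) / a ^ 2) : ‖z‖ < 1 / 400 := by
  linarith [nearD_half hρ hρ1 hθ ha hz]

theorem SD_lip {ρ : ℝ} {θ : ℕ} {S : ℂ → ℂ} (hS : LipS 0 ρ θ (θ / 2) S) {z w : ℂ}
    (hz : z ∈ Metric.ball (0 : ℂ) ρ) (hw : w ∈ Metric.ball (0 : ℂ) ρ) :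
    ‖S z - S w‖ ≤ 8 * θ * ‖z - w‖ := by
  have h := hS z hz w hw
  have h5 : ‖S z - S w‖ ≤ ‖S z - S w + 2 * Real.pi * (θ : ℝ) * (z - w)‖ +
      ‖2 * Real.pi * ((θ : ℝ) : ℂ) * (z - w)‖ := by
    calc ‖S z - S w‖ = ‖(S z - S w + 2 * Real.pi * (θ : ℝ) * (z - w)) -
          2 * Real.pi * ((θ : ℝ) : ℂ) * (z - w)‖ := by
          congr 1; ring
      _ ≤ _ := norm_sub_le _ _
  have h0 : (0 : ℝ) ≤ θ := Nat.cast_nonneg θ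
  have h6 : ‖2 * Real.pi * ((θ : ℝ) : ℂ) * (z - w)‖ = 2 * Real.pi * (θ * ‖z - w‖) := by
    rw [show (2 : ℂ) * Real.pi * ((θ : ℝ) : ℂ) * (z - w) = 2 * Real.pi * (((θ : ℝ) : ℂ) * (z - w)) by ring,
      norm_two_pi, norm_mul, Complex.norm_real, Real.norm_of_nonneg h0]
  have h8 : Real.pi < 3.15 := Real.pi_lt_d2
  have h7 : 0 ≤ (θ : ℝ) * ‖z - w‖ := by positivity
  rw [h6] at h5
  nlinarith

/-- lower bound for the second equation -/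
theorem G2D_low {ρ : ℝ} (hρ : 0 < ρ) (hρ1 : ρ ≤ 1 / 1000) {D a θ : ℕ} (hθ : θ ≤ D)
    (ha : LargeW ρ D a) {S : ℂ → ℂ} (hS : LipS 0 ρ θ (θ / 2) S) {t z t' z' : ℂ}
    (ht : ‖t - 1 / 4‖ ≤ 1 / 400) (ht' : ‖t' - 1 / 4‖ ≤ 1 / 400)
    (hz : ‖z - 1 / a‖ ≤ 2 * (1 + θ) / a ^ 2) (hz' : ‖z' - 1 / a‖ ≤ 2 * (1 + θ) / a ^ 2) :
    (6 * a - 8 - 8 * θ) * ‖z - z'‖ - 8 * ‖t - t'‖ ≤ ‖G2 a S t z - G2 a S t' z'‖ := by
  have h2 := gamy_lip_y (nearD_small hρ hρ1 hθ ha hz) (nearD_small hρ hρ1 hθ ha hz') ht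
  have h3 := gamy_lip_t (nearD_small hρ hρ1 hθ ha hz') ht ht'
  have h4 := SD_lip hS (nearD_ball hρ hρ1 hθ ha hz) (nearD_ball hρ hρ1 hθ ha hz')
  have h5 : ‖2 * Real.pi * (I * a * (z - z'))‖ ≤ ‖G2 a S t z - G2 a S t' z'‖ +
      ‖gamy z t - gamy z' t‖ + ‖gamy z' t - gamy z' t'‖ + ‖S z - S z'‖ := by
    have e : 2 * Real.pi * (I * a * (z - z')) = (G2 a S t z - G2 a S t' z') -
        (gamy z t - gamy z' t) - (gamy z' t - gamy z' t') - (S z - S z') := by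
      unfold G2; ring
    rw [e]
    refine (norm_sub_le _ _).trans ?_
    gcongr
    refine (norm_sub_le _ _).trans ?_
    gcongr
    exact norm_sub_le _ _
  have h6 : ‖2 * Real.pi * (I * a * (z - z'))‖ = 2 * Real.pi * (a * ‖z - z'‖) := by
    rw [norm_two_pi, norm_mul, norm_mul, Complex.norm_I, Complex.norm_natCast, one_mul]
  rw [h6] at h5
  have h7 : 3.14 < Real.pi := Real.pi_gt_d2
  have h8 : 0 ≤ (a : ℝ) * ‖z - z'‖ := by positivity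
  have h9 : 6 * (a * ‖z - z'‖) ≤ 2 * Real.pi * (a * ‖z - z'‖) := by nlinarith
  have e : (6 * a - 8 - 8 * θ) * ‖z - z'‖ = 6 * (a * ‖z - z'‖) - 8 * ‖z - z'‖ - 8 * θ * ‖z - z'‖ := by
    ring
  rw [e]
  linarith

theorem GD_low {ρ : ℝ} (hρ : 0 < ρ) (hρ1 : ρ ≤ 1 / 1000) {D a θ : ℕ} (hθ : θ ≤ D)
    (ha : LargeW ρ D a) {S : ℂ → ℂ} (hS : LipS 0 ρ θ (θ / 2) S) {y t z t' z' : ℂ}
    (hy : y ∈ Metric.ball (0 : ℂ) ρ)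
    (ht : ‖t - 1 / 4‖ ≤ 1 / 400) (ht' : ‖t' - 1 / 4‖ ≤ 1 / 400)
    (hz : ‖z - 1 / a‖ ≤ 2 * (1 + θ) / a ^ 2) (hz' : ‖z' - 1 / a‖ ≤ 2 * (1 + θ) / a ^ 2) :
    ‖t - t'‖ + ‖z - z'‖ ≤ ‖G1 y t z - G1 y t' z'‖ + ‖G2 a S t z - G2 a S t' z'‖ := by
  have h2 := G1_low (ball_small hρ1 hy) ht ht' (nearD_small hρ hρ1 hθ ha hz)
    (nearD_small hρ hρ1 hθ ha hz')
  have h3 := G2D_low hρ hρ1 hθ ha hS ht ht' hz hz'
  have h4 := ha.big hρ hρ1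
  have hθ' : (θ : ℝ) ≤ D := by exact_mod_cast hθ
  have hθ0 : (0 : ℝ) ≤ θ := Nat.cast_nonneg θ
  have h5 : (20 : ℝ) * ‖z - z'‖ ≤ (6 * a - 8 - 8 * θ) * ‖z - z'‖ := by
    apply mul_le_mul_of_nonneg_right _ (norm_nonneg _)
    linarith
  linarith [norm_nonneg (z - z'), norm_nonneg (t - t')]

theorem G2D_up {ρ : ℝ} (hρ : 0 < ρ) (hρ1 : ρ ≤ 1 / 1000) {D a θ : ℕ} (hθ : θ ≤ D)
    (ha : LargeW ρ D a) {S : ℂ → ℂ} (hS : LipS 0 ρ θ (θ / 2) S) {t z t' z' : ℂ}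
    (ht : ‖t - 1 / 4‖ ≤ 1 / 400) (ht' : ‖t' - 1 / 4‖ ≤ 1 / 400)
    (hz : ‖z - 1 / a‖ ≤ 2 * (1 + θ) / a ^ 2) (hz' : ‖z' - 1 / a‖ ≤ 2 * (1 + θ) / a ^ 2) :
    ‖G2 a S t z - G2 a S t' z'‖ ≤ (8 * a + 8 + 8 * θ) * ‖z - z'‖ + 8 * ‖t - t'‖ := by
  have h2 := gamy_lip_y (nearD_small hρ hρ1 hθ ha hz) (nearD_small hρ hρ1 hθ ha hz') ht
  have h3 := gamy_lip_t (nearD_small hρ hρ1 hθ ha hz') ht ht'
  have h4 := SD_lip hS (nearD_ball hρ hρ1 hθ ha hz) (nearD_ball hρ hρ1 hθ ha hz')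
  have e : G2 a S t z - G2 a S t' z' = 2 * Real.pi * (I * a * (z - z')) +
        (gamy z t - gamy z' t) + (gamy z' t - gamy z' t') + (S z - S z') := by
      unfold G2; ring
  have h6 : ‖2 * Real.pi * (I * a * (z - z'))‖ = 2 * Real.pi * (a * ‖z - z'‖) := by
    rw [norm_two_pi, norm_mul, norm_mul, Complex.norm_I, Complex.norm_natCast, one_mul]
  have h5 : ‖G2 a S t z - G2 a S t' z'‖ ≤ ‖2 * Real.pi * (I * a * (z - z'))‖ +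
      ‖gamy z t - gamy z' t‖ + ‖gamy z' t - gamy z' t'‖ + ‖S z - S z'‖ := by
    rw [e]
    refine (norm_add_le _ _).trans ?_
    gcongr
    refine (norm_add_le _ _).trans ?_
    gcongr
    exact norm_add_le _ _
  rw [h6] at h5
  have h7 : Real.pi < 3.15 := Real.pi_lt_d2
  have h8 : 0 ≤ (a : ℝ) * ‖z - z'‖ := by positivity
  have h9 : 2 * Real.pi * (a * ‖z - z'‖) ≤ 8 * (a * ‖z - z'‖) := by nlinarith
  have e : (8 * a + 8 + 8 * θ) * ‖z - z'‖ = 8 * (a * ‖z - z'‖) + 8 * ‖z - z'‖ + 8 * θ * ‖z - z'‖ := by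
    ring
  rw [e]
  linarith

/-- existence of the exact solution -/
theorem solD_exists {ρ : ℝ} (hρ : 0 < ρ) (hρ1 : ρ ≤ 1 / 1000) {D a θ : ℕ} (hθ : θ ≤ D)
    (ha : LargeW ρ D a) {S : ℂ → ℂ} (hS : LipS 0 ρ θ (θ / 2) S) {y : ℂ}
    (hy : y ∈ Metric.ball (0 : ℂ) ρ)
    (H : ∀ ε > 0, ∃ t z : ℂ, ‖t - 1 / 4‖ ≤ 1 / 400 ∧ ‖z - 1 / a‖ ≤ 2 * (1 + θ) / a ^ 2 ∧
      ‖G1 y t z‖ ≤ ε ∧ ‖G2 a S t z‖ ≤ ε) :
    ∃ t z : ℂ, ‖t - 1 / 4‖ ≤ 1 / 400 ∧ ‖z - 1 / a‖ ≤ 2 * (1 + θ) / a ^ 2 ∧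
      G1 y t z = 0 ∧ G2 a S t z = 0 := by
  set K : Set (ℂ × ℂ) := Metric.closedBall (1 / 4 : ℂ) (1 / 400) ×ˢ
    Metric.closedBall (1 / a : ℂ) (2 * (1 + θ) / a ^ 2) with hK
  have hKc : IsCompact K := (isCompact_closedBall _ _).prod (isCompact_closedBall _ _)
  have hmem : ∀ p : ℂ × ℂ, p ∈ K ↔ ‖p.1 - 1 / 4‖ ≤ 1 / 400 ∧ ‖p.2 - 1 / a‖ ≤ 2 * (1 + θ) / a ^ 2 := by
    intro p
    rw [hK, Set.mem_prod, mem_closedBall_iff_norm, mem_closedBall_iff_norm]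
  set Φ : ℂ × ℂ → ℝ := fun p => ‖G1 y p.1 p.2‖ + ‖G2 a S p.1 p.2‖ with hΦ
  have hcont : ContinuousOn Φ K := by
    have hL : LipschitzOnWith (Real.toNNReal (8 * a + 64 + 8 * θ)) Φ K := by
      refine LipschitzOnWith.of_dist_le_mul fun p hp q hq => ?_
      rw [hmem] at hp hq
      have e1 := G1_up (ball_small hρ1 hy) hp.1 hq.1 (nearD_small hρ hρ1 hθ ha hp.2)
        (nearD_small hρ hρ1 hθ ha hq.2)
      have e2 := G2D_up hρ hρ1 hθ ha hS hp.1 hq.1 hp.2 hq.2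
      have d1 : ‖p.1 - q.1‖ ≤ dist p q := by
        rw [← dist_eq_norm]; exact le_max_left _ _
      have d2 : ‖p.2 - q.2‖ ≤ dist p q := by
        rw [← dist_eq_norm]; exact le_max_right _ _
      rw [Real.coe_toNNReal _ (by positivity), Real.dist_eq]
      have e3 := abs_norm_sub_norm_le (G1 y p.1 p.2) (G1 y q.1 q.2)
      have e4 := abs_norm_sub_norm_le (G2 a S p.1 p.2) (G2 a S q.1 q.2)
      have e5 : |Φ p - Φ q| ≤ |‖G1 y p.1 p.2‖ - ‖G1 y q.1 q.2‖| + |‖G2 a S p.1 p.2‖ - ‖G2 a S q.1 q.2‖| := by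
        rw [hΦ]
        have : (‖G1 y p.1 p.2‖ + ‖G2 a S p.1 p.2‖) - (‖G1 y q.1 q.2‖ + ‖G2 a S q.1 q.2‖) =
          (‖G1 y p.1 p.2‖ - ‖G1 y q.1 q.2‖) + (‖G2 a S p.1 p.2‖ - ‖G2 a S q.1 q.2‖) := by ring
        simp only
        rw [this]
        exact abs_add_le _ _
      have hd : 0 ≤ dist p q := dist_nonneg
      have ha0 : (0 : ℝ) ≤ a := Nat.cast_nonneg a
      have hθ0 : (0 : ℝ) ≤ θ := Nat.cast_nonneg θ
      have e6 : (8 * (a : ℝ) + 8 + 8 * θ) * ‖p.2 - q.2‖ ≤ (8 * a + 8 + 8 * θ) * dist p q :=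
        mul_le_mul_of_nonneg_left d2 (by positivity)
      have e7 : (8 * (a : ℝ) + 64 + 8 * θ) * dist p q =
        (8 * a + 8 + 8 * θ) * dist p q + 56 * dist p q := by ring
      rw [e7]
      linarith
    exact hL.continuousOn
  have hne : K.Nonempty := by
    obtain ⟨t, z, h2, h3, _, _⟩ := H 1 one_pos
    exact ⟨(t, z), (hmem _).2 ⟨h2, h3⟩⟩
  obtain ⟨p, hp, hmin⟩ := hKc.exists_isMinOn hne hcont
  have hz : Φ p = 0 := by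
    by_contra hne0
    have hpos : 0 < Φ p := lt_of_le_of_ne (by positivity) (Ne.symm hne0)
    obtain ⟨t, z, h2, h3, h4, h5⟩ := H (Φ p / 4) (by positivity)
    have h6 : Φ p ≤ Φ (t, z) := hmin ((hmem (t, z)).2 ⟨h2, h3⟩)
    have h7 : Φ (t, z) ≤ Φ p / 4 + Φ p / 4 := add_le_add h4 h5
    linarith
  rw [hmem] at hp
  have h8 : ‖G1 y p.1 p.2‖ = 0 ∧ ‖G2 a S p.1 p.2‖ = 0 := by
    have a1 := norm_nonneg (G1 y p.1 p.2)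
    have a2 := norm_nonneg (G2 a S p.1 p.2)
    have a3 : ‖G1 y p.1 p.2‖ + ‖G2 a S p.1 p.2‖ = 0 := hz
    constructor <;> linarith
  exact ⟨p.1, p.2, hp.1, hp.2, norm_eq_zero.1 h8.1, norm_eq_zero.1 h8.2⟩

end Pool.Agent.Helper17.TG
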