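import Pool.Agent.Helper17.TG.KeyD

/-!
# Module LD: uniform limits, any number of children
-/

namespace Pool.Agent.Helper17.TG

open Complex Finset Filter Topology
open Pool.Agent.Helper9.TB Pool.Agent.Helper9.TF Pool.Agent.Helper9.TG
open Pool.Agent.Helper17.TF (S_lip ball_small mem_conj tends1 tends2)

/-- uniform convergence of the logarithms and of the logarithmic derivatives -/
structure HLD (ρ h0 e4 : ℝ) (θ : ℕ) (f : ℕ → ℂ → ℂ) (S : ℂ → ℂ) (L : ℂ → ℝ) : Prop where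
  good : ∀ᶠ N in atTop, GoodD ρ h0 e4 N θ (f N)
  csl : ∀ ε > 0, ∀ᶠ N in atTop, ∀ z ∈ Metric.ball (0 : ℂ) ρ, ‖sl N (f N) z - S z‖ ≤ ε
  clog : ∀ ε > 0, ∀ᶠ N : ℕ in atTop, ∀ z ∈ Metric.ball (0 : ℂ) ρ,
    |Real.log ‖f N z‖ / N - L z| ≤ ε

theorem HLD.lipS {ρ h0 e4 : ℝ} {θ : ℕ} {f : ℕ → ℂ → ℂ} {S : ℂ → ℂ} {L : ℂ → ℝ}
    (H : HLD ρ h0 e4 θ f S L) : LipS 0 ρ θ (θ / 2) S := by
  intro y hy z hz
  refine le_of_forall_pos_le_add fun ε hε => ?_
  obtain ⟨N, hN1, hN2⟩ := (H.good.and (H.csl (ε / 2) (by positivity))).exists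
  have h1 := hN1.lip y hy z hz
  have h2 := hN2 y hy
  have h3 := hN2 z hz
  have e : S y - S z + 2 * Real.pi * ((θ : ℝ) : ℂ) * (y - z) =
      (sl N (f N) y - sl N (f N) z + 2 * Real.pi * ((θ : ℝ) : ℂ) * (y - z)) - (sl N (f N) y - S y) +
        (sl N (f N) z - S z) := by ring
  rw [e]
  refine (norm_add_le _ _).trans ?_
  have := norm_sub_le (sl N (f N) y - sl N (f N) z + 2 * Real.pi * ((θ : ℝ) : ℂ) * (y - z))
    (sl N (f N) y - S y)
  linarith

theorem sl_neg {N : ℕ} {f : ℂ → ℂ} (hf : ∀ y, f (-y) = f y) (y : ℂ) : sl N f (-y) = - sl N f y := by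
  unfold Helper9.TF.sl
  have h2 : (fun y => f (-y)) = f := funext hf
  have h3 : deriv (fun y => f (-y)) y = - deriv f (-y) := deriv_comp_neg f y
  rw [h2] at h3
  rw [hf, h3]
  ring

theorem slD_zero {N : ℕ} {f : ℂ → ℂ} (hf : ∀ y, f (-y) = f y) : sl N f 0 = 0 := by
  have h := sl_neg (N := N) hf 0
  rw [neg_zero] at h
  have h4 : (2 : ℂ) * sl N f 0 = 0 := by linear_combination h
  simpa using h4

theorem slD_bd {ρ h0 e4 : ℝ} {θ : ℕ} (hρ : 0 < ρ) (hρ1 : ρ ≤ 1 / 1000)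
    {N : ℕ} {f : ℂ → ℂ} (hf : GoodD ρ h0 e4 N θ f) {z : ℂ}
    (hz : z ∈ Metric.ball (0 : ℂ) ρ) : ‖sl N f z‖ ≤ θ := by
  have h := SD_lip hf.lip hz (Metric.mem_ball_self hρ)
  rw [slD_zero hf.even, sub_zero, sub_zero] at h
  have h2 := ball_small hρ1 hz
  have h0 : (0 : ℝ) ≤ θ := Nat.cast_nonneg θ
  nlinarith [norm_nonneg z]

theorem logD_lip {ρ h0 e4 : ℝ} {θ : ℕ} (hρ : 0 < ρ) (hρ1 : ρ ≤ 1 / 1000)
    {N : ℕ} (hN : 1 ≤ N) {f : ℂ → ℂ} (hf : GoodD ρ h0 e4 N θ f) {y z : ℂ}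
    (hy : y ∈ Metric.ball (0 : ℂ) ρ) (hz : z ∈ Metric.ball (0 : ℂ) ρ) :
    |Real.log ‖f y‖ - Real.log ‖f z‖| ≤ N * θ * ‖y - z‖ := by
  have hN0 : (0 : ℝ) < N := by exact_mod_cast hN
  have hd : DifferentiableOn ℂ (fun w => deriv f w / f w) (Metric.ball (0 : ℂ) ρ) := by
    refine DifferentiableOn.div ?_ hf.ent.differentiableOn hf.ne
    exact (hf.ent.deriv).differentiableOn
  obtain ⟨g, hg⟩ := hd.isExactOn_ball
  have hbd : ∀ w ∈ Metric.ball (0 : ℂ) ρ, ‖deriv f w / f w‖ ≤ N * θ := by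
    intro w hw
    have h1 := slD_bd hρ hρ1 hf hw
    have h2 : deriv f w / f w = N * sl N f w := by
      unfold Helper9.TF.sl
      have : (N : ℂ) ≠ 0 := by exact_mod_cast hN0.ne'
      have := hf.ne w hw
      field_simp
    rw [h2, norm_mul, Complex.norm_natCast]
    exact mul_le_mul_of_nonneg_left h1 hN0.le
  have hlip := (convex_ball (0 : ℂ) ρ).norm_image_sub_le_of_norm_hasDerivWithin_le
    (fun w hw => (hg w hw).hasDerivWithinAt) hbd hz hy
  -- `f * exp (-g)` is constant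
  have hconst : ∀ w ∈ Metric.ball (0 : ℂ) ρ, f w * Complex.exp (-g w) = f z * Complex.exp (-g z) := by
    intro w hw
    have hder : ∀ x ∈ Metric.ball (0 : ℂ) ρ,
        HasDerivWithinAt (fun x => f x * Complex.exp (-g x)) 0 (Metric.ball (0 : ℂ) ρ) x := by
      intro x hx
      have h1 : HasDerivAt f (deriv f x) x := (hf.ent x).hasDerivAt
      have h2 : HasDerivAt (fun x => Complex.exp (-g x)) (Complex.exp (-g x) * (-(deriv f x / f x))) x :=
        ((hg x hx).neg).cexp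
      have h3 := h1.mul h2
      have h4 : deriv f x * Complex.exp (-g x) + f x * (Complex.exp (-g x) * (-(deriv f x / f x))) = 0 := by
        have := hf.ne x hx
        field_simp
        ring
      rw [h4] at h3
      exact h3.hasDerivWithinAt
    have h5 := (convex_ball (0 : ℂ) ρ).norm_image_sub_le_of_norm_hasDerivWithin_le (C := 0) hder
      (fun x _ => by simp) hz hw
    rw [zero_mul] at h5
    have h6 := norm_le_zero_iff.1 h5
    exact sub_eq_zero.1 h6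
  have hval : ∀ w ∈ Metric.ball (0 : ℂ) ρ,
      Real.log ‖f w‖ = Real.log ‖f z * Complex.exp (-g z)‖ + (g w).re := by
    intro w hw
    have h1 : f w = (f z * Complex.exp (-g z)) * Complex.exp (g w) := by
      rw [← hconst w hw, mul_assoc, ← Complex.exp_add, neg_add_cancel, Complex.exp_zero, mul_one]
    have h2 : ‖f z * Complex.exp (-g z)‖ ≠ 0 := by
      rw [norm_ne_zero_iff]
      exact mul_ne_zero (hf.ne z hz) (Complex.exp_ne_zero _)
    rw [h1, norm_mul, Complex.norm_exp, Real.log_mul h2 (Real.exp_ne_zero _), Real.log_exp]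
  rw [hval y hy, hval z hz]
  have h7 : Real.log ‖f z * Complex.exp (-g z)‖ + (g y).re - (Real.log ‖f z * Complex.exp (-g z)‖ + (g z).re)
    = (g y - g z).re := by rw [Complex.sub_re]; ring
  rw [h7]
  exact (Complex.abs_re_le_norm _).trans hlip

theorem HLD.lipL {ρ h0 e4 : ℝ} {θ : ℕ} (hρ : 0 < ρ) (hρ1 : ρ ≤ 1 / 1000)
    {f : ℕ → ℂ → ℂ} {S : ℂ → ℂ} {L : ℂ → ℝ} (H : HLD ρ h0 e4 θ f S L) {y z : ℂ}
    (hy : y ∈ Metric.ball (0 : ℂ) ρ) (hz : z ∈ Metric.ball (0 : ℂ) ρ) :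
    |L y - L z| ≤ θ * ‖y - z‖ := by
  refine le_of_forall_pos_le_add fun ε hε => ?_
  obtain ⟨N, ⟨hN1, hN2⟩, hN3⟩ := ((H.good.and (H.clog (ε / 2) (by positivity))).and
    (eventually_ge_atTop 1)).exists
  have hN0 : (0 : ℝ) < N := by exact_mod_cast hN3
  have h1 := logD_lip hρ hρ1 hN3 hN1 hy hz
  have h2 := hN2 y hy
  have h3 := hN2 z hz
  have h4 : |Real.log ‖f N y‖ / N - Real.log ‖f N z‖ / N| ≤ θ * ‖y - z‖ := by
    rw [← sub_div, abs_div, abs_of_pos hN0, div_le_iff₀ hN0]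
    linarith
  rw [abs_le] at *
  constructor <;> linarith [h2.1, h2.2, h3.1, h3.2, h4.1, h4.2]

/-- The limits are odd and even. -/
theorem HLD.odd {ρ h0 e4 : ℝ} {θ : ℕ} {f : ℕ → ℂ → ℂ} {S : ℂ → ℂ} {L : ℂ → ℝ}
    (H : HLD ρ h0 e4 θ f S L) {y : ℂ} (hy : y ∈ Metric.ball (0 : ℂ) ρ) :
    S (-y) = - S y ∧ L (-y) = L y := by
  have hy' : -y ∈ Metric.ball (0 : ℂ) ρ := by
    rw [mem_ball_zero_iff, norm_neg]
    rwa [mem_ball_zero_iff] at hy
  constructor
  · have h : ‖S (-y) + S y‖ ≤ 0 := by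
      refine le_of_forall_pos_le_add fun ε hε => ?_
      obtain ⟨N, hN1, hN2⟩ := (H.good.and (H.csl (ε / 2) (by positivity))).exists
      have h2 := hN2 y hy
      have h3 := hN2 _ hy'
      have e : S (-y) + S y = -(sl N (f N) (-y) - S (-y)) - (sl N (f N) y - S y) := by
        rw [sl_neg hN1.even]; ring
      rw [e]
      refine (norm_sub_le _ _).trans ?_
      rw [norm_neg]
      linarith
    have h' := norm_le_zero_iff.1 h
    exact eq_neg_of_add_eq_zero_left h'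
  · have h : |L (-y) - L y| ≤ 0 := by
      refine le_of_forall_pos_le_add fun ε hε => ?_
      obtain ⟨N, hN1, hN2⟩ := (H.good.and (H.clog (ε / 2) (by positivity))).exists
      have h2 := hN2 y hy
      have h3 := hN2 _ hy'
      rw [hN1.even] at h3
      rw [abs_le] at *
      constructor <;> linarith [h2.1, h2.2, h3.1, h3.2]
    exact sub_eq_zero.1 (abs_nonpos_iff.1 h)

/-! ### conjugation -/

theorem cj_eq (F : ℂ → ℂ) : Helper9.TG.cj F = Helper17.TF.cj F := rfl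

theorem slD_cj {F : ℂ → ℂ} (hF : Differentiable ℂ F) (N : ℕ) (y : ℂ) :
    sl N (Helper9.TG.cj F) y = (starRingEnd ℂ) (sl N F ((starRingEnd ℂ) y)) :=
  Helper17.TF.sl_cj hF N y

theorem normD_cj (F : ℂ → ℂ) (y : ℂ) : ‖Helper9.TG.cj F y‖ = ‖F ((starRingEnd ℂ) y)‖ :=
  Helper17.TF.norm_cj F y

theorem cjD_conj_apply (F : ℂ → ℂ) (y : ℂ) :
    Helper9.TG.cj F ((starRingEnd ℂ) y) = (starRingEnd ℂ) (F y) := by
  unfold Helper9.TG.cj
  rw [Complex.conj_conj]

theorem cjD_cj (F : ℂ → ℂ) : Helper9.TG.cj (Helper9.TG.cj F) = F := by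
  funext y
  unfold Helper9.TG.cj
  rw [Complex.conj_conj, Complex.conj_conj]

theorem GoodD.cj {ρ h0 e4 : ℝ} {N θ : ℕ} {F : ℂ → ℂ} (hF : GoodD ρ h0 e4 N θ F) :
    GoodD ρ h0 e4 N θ (Helper9.TG.cj F) where
  ent := fun y => (Helper17.TF.cj_deriv hF.ent y).differentiableAt
  even := fun y => by
    unfold Helper9.TG.cj
    rw [map_neg, hF.even]
  ne := fun y hy => by
    rw [← norm_ne_zero_iff, normD_cj, norm_ne_zero_iff]
    exact hF.ne _ (mem_conj hy)
  lip := by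
    intro y hy z hz
    rw [slD_cj hF.ent, slD_cj hF.ent]
    have h := hF.lip _ (mem_conj hy) _ (mem_conj hz)
    have e : (starRingEnd ℂ) (sl N F ((starRingEnd ℂ) y)) - (starRingEnd ℂ) (sl N F ((starRingEnd ℂ) z)) +
        2 * Real.pi * ((θ : ℝ) : ℂ) * (y - z) = (starRingEnd ℂ) (sl N F ((starRingEnd ℂ) y) -
          sl N F ((starRingEnd ℂ) z) + 2 * Real.pi * ((θ : ℝ) : ℂ) * ((starRingEnd ℂ) y - (starRingEnd ℂ) z)) := by
      simp only [map_add, map_sub, map_mul, Complex.conj_conj, Complex.conj_ofReal, map_ofNat]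
    rw [e, Complex.norm_conj, ← Complex.norm_conj (y - z), map_sub]
    exact h
  glob := fun y h1 h2 => by
    rw [normD_cj, normD_cj, map_zero]
    exact hF.glob _ (by rwa [Complex.conj_re]) (by rwa [Complex.conj_im, abs_neg])

theorem DecayD.cj {ρ h0 κ : ℝ} {N : ℕ} {F : ℂ → ℂ} (hF : DecayD ρ h0 κ N F) :
    DecayD ρ h0 κ N (Helper9.TG.cj F) := fun y h1 h2 h3 => by
  rw [normD_cj, normD_cj, map_zero]
  exact hF _ (by rwa [Complex.conj_re]) (by rwa [Complex.conj_im, abs_neg]) (by rwa [Complex.conj_re])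

theorem HLD.cj {ρ h0 e4 : ℝ} {θ : ℕ} {f : ℕ → ℂ → ℂ} {S : ℂ → ℂ} {L : ℂ → ℝ}
    (H : HLD ρ h0 e4 θ f S L) :
    HLD ρ h0 e4 θ (fun N => Helper9.TG.cj (f N)) (Helper9.TG.cj S)
      (fun y => L ((starRingEnd ℂ) y)) where
  good := H.good.mono fun N h => GoodD.cj h
  csl := fun ε hε => by
    filter_upwards [H.good, H.csl ε hε] with N h1 h2 z hz
    rw [slD_cj h1.ent]
    unfold Helper9.TG.cj
    rw [← map_sub, Complex.norm_conj]
    exact h2 _ (mem_conj hz)
  clog := fun ε hε => by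
    filter_upwards [H.clog ε hε] with N h2 z hz
    rw [normD_cj]
    exact h2 _ (mem_conj hz)

/-! ### products -/

theorem slD_mul {N : ℕ} {f g : ℂ → ℂ} (hf : Differentiable ℂ f) (hg : Differentiable ℂ g) {y : ℂ}
    (h1 : f y ≠ 0) (h2 : g y ≠ 0) : sl N (fun y => f y * g y) y = sl N f y + sl N g y := by
  unfold Helper9.TF.sl
  have h3 : deriv (fun y => f y * g y) y = deriv f y * g y + f y * deriv g y :=
    deriv_fun_mul (hf y) (hg y)
  rw [h3]
  rcases Nat.eq_zero_or_pos N with h0 | h0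
  · subst h0; simp
  · have : (N : ℂ) ≠ 0 := by exact_mod_cast h0.ne'
    field_simp

theorem GoodD.mul {ρ h0 e4 : ℝ} {N θ θ' : ℕ} {f g : ℂ → ℂ} (hf : GoodD ρ h0 e4 N θ f)
    (hg : GoodD ρ h0 e4 N θ' g) : GoodD ρ h0 e4 N (θ + θ') (fun y => f y * g y) where
  ent := hf.ent.mul hg.ent
  even := fun y => by rw [hf.even, hg.even]
  ne := fun y hy => mul_ne_zero (hf.ne y hy) (hg.ne y hy)
  lip := by
    intro y hy z hz
    rw [slD_mul hf.ent hg.ent (hf.ne y hy) (hg.ne y hy),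
      slD_mul hf.ent hg.ent (hf.ne z hz) (hg.ne z hz)]
    have h1 := hf.lip y hy z hz
    have h2 := hg.lip y hy z hz
    have e : sl N f y + sl N g y - (sl N f z + sl N g z) +
        2 * Real.pi * (((θ + θ' : ℕ) : ℝ) : ℂ) * (y - z) =
        (sl N f y - sl N f z + 2 * Real.pi * ((θ : ℝ) : ℂ) * (y - z)) +
        (sl N g y - sl N g z + 2 * Real.pi * ((θ' : ℝ) : ℂ) * (y - z)) := by
      push_cast; ring
    rw [e]
    refine (norm_add_le _ _).trans ((add_le_add h1 h2).trans (le_of_eq ?_))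
    push_cast; ring
  glob := fun y h1 h2 => by
    rw [norm_mul, norm_mul]
    refine (mul_le_mul (hf.glob y h1 h2) (hg.glob y h1 h2) (norm_nonneg _) (by positivity)).trans
      (le_of_eq ?_)
    have e : Real.exp (N * (((θ + θ' : ℕ) : ℝ) * e4)) =
        Real.exp (N * (θ * e4)) * Real.exp (N * (θ' * e4)) := by
      rw [← Real.exp_add]; congr 1; push_cast; ring
    rw [e]; ring

theorem DecayD.mul {ρ h0 e4 κ : ℝ} {N θ : ℕ} {f g : ℂ → ℂ} (hf : GoodD ρ h0 e4 N θ f)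
    (hg : DecayD ρ h0 κ N g) : DecayD ρ h0 (κ - θ * e4) N (fun y => f y * g y) := by
  intro y h1 h2 h3
  rw [norm_mul, norm_mul]
  refine (mul_le_mul (hf.glob y h1 h2) (hg y h1 h2 h3) (norm_nonneg _) (by positivity)).trans
    (le_of_eq ?_)
  have e : Real.exp (-(N * (κ - θ * e4))) =
      Real.exp (N * (θ * e4)) * Real.exp (-(N * κ)) := by
    rw [← Real.exp_add]; congr 1; ring
  rw [e]; ring

theorem DecayD.weaken {ρ h0 κ κ' : ℝ} {N : ℕ} {f : ℂ → ℂ} (h : κ' ≤ κ) (hf : DecayD ρ h0 κ N f) :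
    DecayD ρ h0 κ' N f := by
  intro y h1 h2 h3
  refine (hf y h1 h2 h3).trans (mul_le_mul_of_nonneg_left (Real.exp_le_exp.2 ?_) (norm_nonneg _))
  have : (0 : ℝ) ≤ N := Nat.cast_nonneg N
  nlinarith

theorem HLD.mul {ρ h0 e4 : ℝ} {θ θ' : ℕ} {f g : ℕ → ℂ → ℂ} {S T : ℂ → ℂ} {L M : ℂ → ℝ}
    (H : HLD ρ h0 e4 θ f S L) (K : HLD ρ h0 e4 θ' g T M) :
    HLD ρ h0 e4 (θ + θ') (fun N y => f N y * g N y) (fun y => S y + T y) (fun y => L y + M y) where
  good := by
    filter_upwards [H.good, K.good] with N h1 h2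
    exact GoodD.mul h1 h2
  csl := fun ε hε => by
    filter_upwards [H.good, K.good, H.csl (ε / 2) (by positivity), K.csl (ε / 2) (by positivity)]
      with N h1 h2 h3 h4 z hz
    rw [slD_mul h1.ent h2.ent (h1.ne z hz) (h2.ne z hz)]
    have e : sl N (f N) z + sl N (g N) z - (S z + T z) =
      (sl N (f N) z - S z) + (sl N (g N) z - T z) := by ring
    rw [e]
    refine (norm_add_le _ _).trans ?_
    linarith [h3 z hz, h4 z hz]
  clog := fun ε hε => by
    filter_upwards [H.good, K.good, H.clog (ε / 2) (by positivity), K.clog (ε / 2) (by positivity)]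
      with N h1 h2 h3 h4 z hz
    rw [norm_mul, Real.log_mul (norm_ne_zero_iff.2 (h1.ne z hz)) (norm_ne_zero_iff.2 (h2.ne z hz))]
    have e : (Real.log ‖f N z‖ + Real.log ‖g N z‖) / N - (L z + M z) =
      (Real.log ‖f N z‖ / N - L z) + (Real.log ‖g N z‖ / N - M z) := by ring
    rw [e]
    refine (abs_add_le _ _).trans ?_
    linarith [h3 z hz, h4 z hz]

theorem HLD_zero {ρ h0 e4 : ℝ} :
    HLD ρ h0 e4 0 (fun _ _ => (1 : ℂ)) (fun _ => 0) (fun _ => 0) where
  good := Eventually.of_forall fun N =>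
    { ent := differentiable_const _
      even := fun _ => rfl
      ne := fun _ _ => one_ne_zero
      lip := by
        intro y _ z _
        have h : ∀ y, sl N (fun _ => (1 : ℂ)) y = 0 := by
          intro y
          unfold Helper9.TF.sl
          rw [deriv_const, zero_div]
        rw [h, h]
        simp
      glob := fun y _ _ => by simp }
  csl := fun ε hε => Eventually.of_forall fun N z _ => by
    unfold Helper9.TF.sl
    rw [deriv_const, zero_div, sub_zero, norm_zero]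
    exact hε.le
  clog := fun ε hε => Eventually.of_forall fun N z _ => by
    simpa using hε.le

end Pool.Agent.Helper17.TG
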