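import Pool.Agent.Helper17.TG.LimD

/-!
# Module LD: one step and the last step in the limit, any number of children
-/

namespace Pool.Agent.Helper17.TG

open Complex Finset Filter Topology
open Pool.Agent.Helper9.TB Pool.Agent.Helper9.TF Pool.Agent.Helper9.TG
open Pool.Agent.Helper17.TF (ball_small mem_conj tends1 tends2 Ex G1 G2 gam_lip_t gam_lip_y
  gamy_lip_t norm_two_pi E2)

theorem ExD_lip {ρ : ℝ} (hρ : 0 < ρ) (hρ1 : ρ ≤ 1 / 1000) {D a θ : ℕ} (hθ : θ ≤ D)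
    (ha : LargeW ρ D a) {z w : ℂ}
    (hz : ‖z - 1 / a‖ ≤ 2 * (1 + θ) / a ^ 2) (hw : ‖w - 1 / a‖ ≤ 2 * (1 + θ) / a ^ 2) :
    ‖Ex a z - Ex a w‖ ≤ (a + 7) * ‖z - w‖ := by
  have h1 := nearD_small hρ hρ1 hθ ha hz
  have h2 := nearD_small hρ hρ1 hθ ha hw
  have e : Ex a z - Ex a w = (Real.pi * I * a * (z + w) - 2 * Real.pi * I) * (z - w) := by
    unfold Helper17.TF.Ex; ring
  rw [e, norm_mul]
  refine mul_le_mul_of_nonneg_right ?_ (norm_nonneg _)
  refine (norm_sub_le _ _).trans ?_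
  have h3 : ‖Real.pi * I * a * (z + w)‖ = Real.pi * a * ‖z + w‖ := by
    rw [norm_mul, norm_mul, norm_mul, Complex.norm_real, Real.norm_of_nonneg Real.pi_pos.le,
      Complex.norm_I, Complex.norm_natCast, mul_one]
  have h4 : ‖2 * Real.pi * I‖ = 2 * Real.pi := by
    rw [norm_two_pi, Complex.norm_I, mul_one]
  have h5 : ‖z + w‖ ≤ 1 / 200 := (norm_add_le _ _).trans (by linarith)
  have h6 : Real.pi < 3.15 := Real.pi_lt_d2
  have ha0 : (0 : ℝ) ≤ a := Nat.cast_nonneg a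
  rw [h3, h4]
  have h7 : Real.pi * a * ‖z + w‖ ≤ Real.pi * a * (1 / 200) :=
    mul_le_mul_of_nonneg_left h5 (by positivity)
  have h8 : Real.pi * a ≤ 3.15 * a := mul_le_mul_of_nonneg_right h6.le ha0
  linarith

theorem approxD {ρ h0 e4 : ℝ} {D R0 : ℕ} (H : StepD ρ h0 e4 D R0) {θ : ℕ} (hθ : θ ≤ D)
    {a : ℕ} (ha0 : R0 ≤ a) (ha : LargeW ρ D a) {f : ℕ → ℂ → ℂ} {S : ℂ → ℂ} {L : ℂ → ℝ}
    (hf : HLD ρ h0 e4 θ f S L) :
    (∀ᶠ N in atTop, GoodD ρ h0 e4 N 1 (nx N a ((1 + θ) / a ^ 2) (f N)) ∧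
      DecayD ρ h0 (ρ ^ 2 / 8) N (nx N a ((1 + θ) / a ^ 2) (f N))) ∧
    ∀ ε > 0, ∀ᶠ N : ℕ in atTop, ∀ y ∈ Metric.ball (0 : ℂ) ρ, ∃ t z : ℂ,
      ‖t - 1 / 4‖ ≤ 1 / 400 ∧ ‖z - 1 / a‖ ≤ 2 * (1 + θ) / a ^ 2 ∧ ‖G1 y t z‖ ≤ ε ∧
      ‖G2 a S t z‖ ≤ ε ∧
      ‖sl N (nx N a ((1 + θ) / a ^ 2) (f N)) y - gamy y t‖ ≤ ε ∧
      |Real.log ‖nx N a ((1 + θ) / a ^ 2) (f N) y‖ / N -
        (L z + (gam y t + gam z t + Ex a z).re)| ≤ ε := by
  obtain ⟨C, hC, N0, hN0⟩ := H.step a ha0 θ hθ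
  constructor
  · filter_upwards [hf.good, eventually_ge_atTop N0] with N h1 h2
    exact ⟨(hN0 N h2 (f N) h1).1, (hN0 N h2 (f N) h1).2.1⟩
  · intro ε hε
    filter_upwards [hf.good, eventually_ge_atTop N0, hf.csl (ε / 2) (by positivity),
      hf.clog (ε / 2) (by positivity), tends1 C (half_pos hε), tends2 C (half_pos hε),
      eventually_ge_atTop 1] with N h1 h2 h3 h4 h5 h6 h7 y hy
    obtain ⟨t, z, hA⟩ := (hN0 N h2 (f N) h1).2.2 y hy
    have hzb := nearD_ball H.rho_pos H.rho_le hθ ha hA.near_z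
    have hNp : (0 : ℝ) < N := by exact_mod_cast h7
    refine ⟨t, z, hA.near_t, hA.near_z, ?_, ?_, ?_, ?_⟩
    · exact hA.e1.trans (by linarith)
    · have e : G2 a S t z = (2 * Real.pi * I * a * z - 2 * Real.pi * I + gamy z t + sl N (f N) z) -
          (sl N (f N) z - S z) := by unfold Helper17.TF.G2; ring
      rw [e]
      refine (norm_sub_le _ _).trans ?_
      have := hA.e2
      have := h3 z hzb
      linarith
    · exact hA.e3.trans (by linarith)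
    · have h8 := hA.e4
      have h9 := h4 z hzb
      have h10 : |(Real.log ‖nx N a ((1 + θ) / a ^ 2) (f N) y‖ - Real.log ‖f N z‖ -
          N * (gam y t + gam z t + Real.pi * I * a * z ^ 2 - 2 * Real.pi * I * z).re) / N| ≤ ε / 2 := by
        rw [abs_div, abs_of_pos hNp]
        exact (div_le_div_of_nonneg_right h8 hNp.le).trans h6
      have e : Real.log ‖nx N a ((1 + θ) / a ^ 2) (f N) y‖ / N -
        (L z + (gam y t + gam z t + Ex a z).re) = (Real.log ‖nx N a ((1 + θ) / a ^ 2) (f N) y‖ - Real.log ‖f N z‖ -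
          N * (gam y t + gam z t + Real.pi * I * a * z ^ 2 - 2 * Real.pi * I * z).re) / N +
          (Real.log ‖f N z‖ / N - L z) := by
        have : gam y t + gam z t + Ex a z =
          gam y t + gam z t + Real.pi * I * a * z ^ 2 - 2 * Real.pi * I * z := by
          unfold Helper17.TF.Ex; ring
        rw [this]
        field_simp
        ring
      rw [e]
      refine (abs_add_le _ _).trans ?_
      linarith

theorem HLD_step {ρ h0 e4 : ℝ} {D R0 : ℕ} (H : StepD ρ h0 e4 D R0) {θ : ℕ} (hθ : θ ≤ D)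
    {a : ℕ} (ha0 : R0 ≤ a) (ha : LargeW ρ D a) {f : ℕ → ℂ → ℂ} {S : ℂ → ℂ} {L : ℂ → ℝ}
    (hf : HLD ρ h0 e4 θ f S L) :
    ∃ t z : ℂ → ℂ, (∀ y ∈ Metric.ball (0 : ℂ) ρ, ‖t y - 1 / 4‖ ≤ 1 / 400 ∧
      ‖z y - 1 / a‖ ≤ 2 * (1 + θ) / a ^ 2 ∧ G1 y (t y) (z y) = 0 ∧ G2 a S (t y) (z y) = 0) ∧
    (∀ᶠ N in atTop, DecayD ρ h0 (ρ ^ 2 / 8) N (nx N a ((1 + θ) / a ^ 2) (f N))) ∧
    HLD ρ h0 e4 1 (fun N => nx N a ((1 + θ) / a ^ 2) (f N)) (fun y => gamy y (t y))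
      (fun y => L (z y) + (gam y (t y) + gam (z y) (t y) + Ex a (z y)).re) := by
  have hS := hf.lipS
  obtain ⟨A1, A2⟩ := approxD H hθ ha0 ha hf
  have hsol : ∀ y ∈ Metric.ball (0 : ℂ) ρ, ∃ t z : ℂ, ‖t - 1 / 4‖ ≤ 1 / 400 ∧
      ‖z - 1 / a‖ ≤ 2 * (1 + θ) / a ^ 2 ∧ G1 y t z = 0 ∧ G2 a S t z = 0 := by
    intro y hy
    refine solD_exists H.rho_pos H.rho_le hθ ha hS hy fun ε hε => ?_
    obtain ⟨N, hN⟩ := (A2 ε hε).exists
    obtain ⟨t, z, h1, h2, h3, h4, _, _⟩ := hN y hy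
    exact ⟨t, z, h1, h2, h3, h4⟩
  choose! t z hsol using hsol
  refine ⟨t, z, hsol, A1.mono fun N h => h.2, A1.mono fun N h => h.1, ?_, ?_⟩
  · intro ε hε
    filter_upwards [A2 (ε / 20) (by positivity)] with N hN y hy
    obtain ⟨t', z', h1, h2, h3, h4, h5, _⟩ := hN y hy
    obtain ⟨k1, k2, k3, k4⟩ := hsol y hy
    have hlow := GD_low H.rho_pos H.rho_le hθ ha hS hy h1 k1 h2 k2
    rw [k3, k4, sub_zero, sub_zero] at hlow
    have h6 := gamy_lip_t (ball_small H.rho_le hy) h1 k1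
    have e : sl N (nx N a ((1 + θ) / a ^ 2) (f N)) y - gamy y (t y) =
      (sl N (nx N a ((1 + θ) / a ^ 2) (f N)) y - gamy y t') + (gamy y t' - gamy y (t y)) := by ring
    rw [e]
    refine (norm_add_le _ _).trans ?_
    have := norm_nonneg (z' - z y)
    linarith
  · intro ε hε
    have ha00 : (0 : ℝ) ≤ a := Nat.cast_nonneg a
    have hθ0 : (0 : ℝ) ≤ θ := Nat.cast_nonneg θ
    have hc : 0 < ε / (4 * (a + 40 + θ)) := by positivity
    filter_upwards [A2 _ hc] with N hN y hy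
    obtain ⟨t', z', h1, h2, h3, h4, _, h6⟩ := hN y hy
    obtain ⟨k1, k2, k3, k4⟩ := hsol y hy
    have hlow := GD_low H.rho_pos H.rho_le hθ ha hS hy h1 k1 h2 k2
    rw [k3, k4, sub_zero, sub_zero] at hlow
    set δ : ℝ := ε / (4 * (a + 40 + θ)) with hδ
    have hsum : ‖t' - t y‖ + ‖z' - z y‖ ≤ 2 * δ := by linarith
    have q1 := gam_lip_t (ball_small H.rho_le hy) h1 k1
    have q2 := gam_lip_t (nearD_small H.rho_pos H.rho_le hθ ha h2) h1 k1
    have q3 := gam_lip_y (nearD_small H.rho_pos H.rho_le hθ ha h2)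
      (nearD_small H.rho_pos H.rho_le hθ ha k2) k1
    have q4 := ExD_lip H.rho_pos H.rho_le hθ ha h2 k2
    have q5 := hf.lipL H.rho_pos H.rho_le (nearD_ball H.rho_pos H.rho_le hθ ha h2)
      (nearD_ball H.rho_pos H.rho_le hθ ha k2)
    have q6 : |(gam y t' + gam z' t' + Ex a z').re - (gam y (t y) + gam (z y) (t y) + Ex a (z y)).re| ≤
        ‖gam y t' - gam y (t y)‖ + ‖gam z' t' - gam z' (t y)‖ + ‖gam z' (t y) - gam (z y) (t y)‖ +
          ‖Ex a z' - Ex a (z y)‖ := by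
      rw [← Complex.sub_re]
      refine (Complex.abs_re_le_norm _).trans ?_
      have e : gam y t' + gam z' t' + Ex a z' - (gam y (t y) + gam (z y) (t y) + Ex a (z y)) =
        (gam y t' - gam y (t y)) + (gam z' t' - gam z' (t y)) + (gam z' (t y) - gam (z y) (t y)) +
          (Ex a z' - Ex a (z y)) := by ring
      rw [e]
      refine (norm_add_le _ _).trans ?_
      gcongr
      refine (norm_add_le _ _).trans ?_
      gcongr
      exact norm_add_le _ _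
    have n1 := norm_nonneg (t' - t y)
    have n2 := norm_nonneg (z' - z y)
    have q7 : (a + 7) * ‖z' - z y‖ ≤ (a + 7) * (2 * δ) := by
      apply mul_le_mul_of_nonneg_left _ (by positivity)
      linarith
    have q8 : θ * ‖z' - z y‖ ≤ θ * (2 * δ) := by
      apply mul_le_mul_of_nonneg_left _ hθ0
      linarith
    have e : Real.log ‖nx N a ((1 + θ) / a ^ 2) (f N) y‖ / N -
        (L (z y) + (gam y (t y) + gam (z y) (t y) + Ex a (z y)).re) =
        (Real.log ‖nx N a ((1 + θ) / a ^ 2) (f N) y‖ / N - (L z' + (gam y t' + gam z' t' + Ex a z').re)) +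
        (L z' - L (z y)) +
        ((gam y t' + gam z' t' + Ex a z').re - (gam y (t y) + gam (z y) (t y) + Ex a (z y)).re) := by
      ring
    rw [e]
    have hfin : δ * (4 * (a + 40 + θ)) = ε := by
      rw [hδ]; field_simp
    have e2 : |(Real.log ‖nx N a ((1 + θ) / a ^ 2) (f N) y‖ / N - (L z' + (gam y t' + gam z' t' + Ex a z').re)) +
        (L z' - L (z y)) +
        ((gam y t' + gam z' t' + Ex a z').re - (gam y (t y) + gam (z y) (t y) + Ex a (z y)).re)| ≤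
        δ + θ * ‖z' - z y‖ + (‖gam y t' - gam y (t y)‖ + ‖gam z' t' - gam z' (t y)‖ +
          ‖gam z' (t y) - gam (z y) (t y)‖ + ‖Ex a z' - Ex a (z y)‖) := by
      refine (abs_add_le _ _).trans ?_
      refine add_le_add ((abs_add_le _ _).trans (add_le_add h6 q5)) q6
    refine e2.trans ?_
    have hδ0 : 0 < δ := hc
    have m1 : 0 ≤ δ * a := mul_nonneg hδ0.le ha00
    have m2 : 0 ≤ δ * θ := mul_nonneg hδ0.le hθ0
    rw [← hfin]
    have e3 : δ * (4 * (a + 40 + θ)) = 4 * (δ * a) + 160 * δ + 4 * (δ * θ) := by ring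
    have e4 : ((a : ℝ) + 7) * (2 * δ) = 2 * (δ * a) + 14 * δ := by ring
    have e5 : (θ : ℝ) * (2 * δ) = 2 * (δ * θ) := by ring
    rw [e3]
    rw [e4] at q7
    rw [e5] at q8
    linarith

theorem E2D_bd {ρ : ℝ} (hρ : 0 < ρ) (hρ1 : ρ ≤ 1 / 1000) {D a θ : ℕ} (hθ : θ ≤ D)
    (ha : LargeW ρ D a) {S : ℂ → ℂ} (hS : LipS 0 ρ θ (θ / 2) S) {z w : ℂ}
    (hz : z ∈ Metric.ball (0 : ℂ) ρ) (hw : w ∈ Metric.ball (0 : ℂ) ρ) :
    ‖z - w‖ ≤ ‖E2 a S z - E2 a S w‖ ∧ ‖E2 a S z - E2 a S w‖ ≤ (8 * a + 8 * θ) * ‖z - w‖ := by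
  have h4 := SD_lip hS hz hw
  have h6 : ‖2 * Real.pi * (I * a * (z - w))‖ = 2 * Real.pi * (a * ‖z - w‖) := by
    rw [norm_two_pi, norm_mul, norm_mul, Complex.norm_I, Complex.norm_natCast, one_mul]
  have e1 : E2 a S z - E2 a S w = 2 * Real.pi * (I * a * (z - w)) + (S z - S w) := by
    unfold Helper17.TF.E2; ring
  have e2 : 2 * Real.pi * (I * a * (z - w)) = (E2 a S z - E2 a S w) - (S z - S w) := by
    unfold Helper17.TF.E2; ring
  have h7 : ‖2 * Real.pi * (I * a * (z - w))‖ ≤ ‖E2 a S z - E2 a S w‖ + ‖S z - S w‖ := by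
    rw [e2]; exact norm_sub_le _ _
  have h8 : ‖E2 a S z - E2 a S w‖ ≤ ‖2 * Real.pi * (I * a * (z - w))‖ + ‖S z - S w‖ := by
    rw [e1]; exact norm_add_le _ _
  rw [h6] at h7 h8
  have h9 : Real.pi < 3.15 := Real.pi_lt_d2
  have h10 : 3.14 < Real.pi := Real.pi_gt_d2
  have h11 := ha.big hρ hρ1
  have hθ' : (θ : ℝ) ≤ D := by exact_mod_cast hθ
  have h12 : 0 ≤ (a : ℝ) * ‖z - w‖ := by positivity
  have h14 := norm_nonneg (z - w)
  have h13 : (8000 * (1 + θ : ℝ)) * ‖z - w‖ ≤ (a : ℝ) * ‖z - w‖ :=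
    mul_le_mul_of_nonneg_right (by linarith) h14
  have h15 : (8000 * (1 + θ : ℝ)) * ‖z - w‖ = 8000 * ‖z - w‖ + 8000 * (θ * ‖z - w‖) := by ring
  have h16 : 0 ≤ (θ : ℝ) * ‖z - w‖ := by positivity
  have h17 : 6 * (a * ‖z - w‖) ≤ 2 * Real.pi * (a * ‖z - w‖) := by nlinarith
  have h18 : 2 * Real.pi * (a * ‖z - w‖) ≤ 8 * (a * ‖z - w‖) := by nlinarith
  have h19 : 8 * (θ : ℝ) * ‖z - w‖ = 8 * (θ * ‖z - w‖) := by ring
  have h20 : (8 * a + 8 * θ) * ‖z - w‖ = 8 * (a * ‖z - w‖) + 8 * (θ * ‖z - w‖) := by ring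
  rw [h15] at h13
  rw [h19] at h4
  rw [h20]
  constructor
  · linarith
  · linarith

theorem near_of_last {a θ : ℕ} {z : ℂ} (hz : ‖z - 1 / a‖ ≤ 2 * θ / a ^ 2) :
    ‖z - 1 / a‖ ≤ 2 * (1 + θ) / a ^ 2 := by
  refine hz.trans ?_
  gcongr
  linarith

/-- the last step in the limit -/
theorem HLD_last {ρ h0 e4 : ℝ} {D R0 : ℕ} (H : StepD ρ h0 e4 D R0)
    {θ : ℕ} (hθ1 : 1 ≤ θ) (hθ : θ ≤ D) {a : ℕ} (ha0 : R0 ≤ a) (ha : LargeW ρ D a)
    {f : ℕ → ℂ → ℂ} {S : ℂ → ℂ} {L : ℂ → ℝ}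
    (hf : HLD ρ h0 e4 θ f S L) (hD : ∀ᶠ N in atTop, DecayD ρ h0 (ρ ^ 2 / 12) N (f N)) :
    ∃ z : ℂ, ‖z - 1 / a‖ ≤ 2 * θ / a ^ 2 ∧ 2 * Real.pi * I * a * z - 2 * Real.pi * I + S z = 0 ∧
      Tendsto (fun N : ℕ => Real.log ‖site N a (θ / a ^ 2) (f N) 0‖ / N) atTop
        (nhds (L z + (Ex a z).re)) := by
  have hS := hf.lipS
  obtain ⟨C, hC, N0, hN0⟩ := H.last a ha0 θ hθ1 hθ
  have ha00 : (0 : ℝ) ≤ a := Nat.cast_nonneg a
  have hθ0 : (0 : ℝ) ≤ θ := Nat.cast_nonneg θ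
  have hball : ∀ z : ℂ, ‖z - 1 / a‖ ≤ 2 * θ / a ^ 2 → z ∈ Metric.ball (0 : ℂ) ρ := fun z hz =>
    nearD_ball H.rho_pos H.rho_le hθ ha (near_of_last hz)
  have A : ∀ ε > 0, ∀ᶠ N : ℕ in atTop, ∃ z : ℂ, ‖z - 1 / a‖ ≤ 2 * θ / a ^ 2 ∧ ‖E2 a S z‖ ≤ ε ∧
      |Real.log ‖site N a (θ / a ^ 2) (f N) 0‖ / N - (L z + (Ex a z).re)| ≤ ε := by
    intro ε hε
    filter_upwards [hf.good, hD, eventually_ge_atTop N0, hf.csl (ε / 2) (by positivity),
      hf.clog (ε / 2) (by positivity), tends2 C (half_pos hε),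
      eventually_ge_atTop 1] with N h1 hd h2 h3 h4 h6 h7
    obtain ⟨z, hz1, hz2, hz3⟩ := hN0 N h2 (f N) h1 hd
    have hzb := hball z hz1
    have hNp : (0 : ℝ) < N := by exact_mod_cast h7
    refine ⟨z, hz1, ?_, ?_⟩
    · have e : E2 a S z = (2 * Real.pi * I * a * z - 2 * Real.pi * I + sl N (f N) z) -
          (sl N (f N) z - S z) := by unfold Helper17.TF.E2; ring
      rw [e, hz2, zero_sub, norm_neg]
      exact (h3 z hzb).trans (by linarith)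
    · have h9 := h4 z hzb
      have h10 : |(Real.log ‖site N a (θ / a ^ 2) (f N) 0‖ - Real.log ‖f N z‖ -
          N * (Real.pi * I * a * z ^ 2 - 2 * Real.pi * I * z).re) / N| ≤ ε / 2 := by
        rw [abs_div, abs_of_pos hNp]
        exact (div_le_div_of_nonneg_right hz3 hNp.le).trans h6
      have e : Real.log ‖site N a (θ / a ^ 2) (f N) 0‖ / N - (L z + (Ex a z).re) =
          (Real.log ‖site N a (θ / a ^ 2) (f N) 0‖ - Real.log ‖f N z‖ -
            N * (Real.pi * I * a * z ^ 2 - 2 * Real.pi * I * z).re) / N +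
          (Real.log ‖f N z‖ / N - L z) := by
        have : Ex a z = Real.pi * I * a * z ^ 2 - 2 * Real.pi * I * z := rfl
        rw [this]
        field_simp
        ring
      rw [e]
      refine (abs_add_le _ _).trans ?_
      linarith
  -- the exact solution
  have hsol : ∃ z : ℂ, ‖z - 1 / a‖ ≤ 2 * θ / a ^ 2 ∧ E2 a S z = 0 := by
    have hcont : ContinuousOn (fun z => ‖E2 a S z‖)
        (Metric.closedBall (1 / a : ℂ) (2 * θ / a ^ 2)) := by
      have hL : LipschitzOnWith (Real.toNNReal (8 * a + 8 * θ)) (fun z => ‖E2 a S z‖)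
          (Metric.closedBall (1 / a : ℂ) (2 * θ / a ^ 2)) := by
        refine LipschitzOnWith.of_dist_le_mul fun p hp q hq => ?_
        rw [mem_closedBall_iff_norm] at hp hq
        rw [Real.coe_toNNReal _ (by positivity), Real.dist_eq, dist_eq_norm]
        exact (abs_norm_sub_norm_le _ _).trans
          (E2D_bd H.rho_pos H.rho_le hθ ha hS (hball p hp) (hball q hq)).2
      exact hL.continuousOn
    have hne : (Metric.closedBall (1 / a : ℂ) (2 * θ / a ^ 2)).Nonempty := by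
      refine ⟨1 / a, ?_⟩
      rw [mem_closedBall_iff_norm, sub_self, norm_zero]
      positivity
    obtain ⟨p, hp, hmin⟩ := (isCompact_closedBall _ _).exists_isMinOn hne hcont
    rw [mem_closedBall_iff_norm] at hp
    refine ⟨p, hp, ?_⟩
    by_contra h0
    have hpos : 0 < ‖E2 a S p‖ := norm_pos_iff.2 h0
    obtain ⟨N, hN⟩ := (A (‖E2 a S p‖ / 2) (by positivity)).exists
    obtain ⟨z, h1, h2, _⟩ := hN
    have h3 : ‖E2 a S p‖ ≤ ‖E2 a S z‖ := hmin (by rw [mem_closedBall_iff_norm]; exact h1)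
    linarith
  obtain ⟨z, hz1, hz2⟩ := hsol
  refine ⟨z, hz1, hz2, ?_⟩
  rw [Metric.tendsto_atTop]
  intro ε hε
  have hc : 0 < ε / (2 * (a + 40 + θ)) := by positivity
  obtain ⟨N1, hN1⟩ := eventually_atTop.1 (A _ hc)
  refine ⟨N1, fun N hN => ?_⟩
  obtain ⟨z', h1, h2, h3⟩ := hN1 N hN
  set δ : ℝ := ε / (2 * (a + 40 + θ)) with hδ
  have q1 := (E2D_bd H.rho_pos H.rho_le hθ ha hS (hball z' h1) (hball z hz1)).1
  rw [hz2, sub_zero] at q1
  have q2 := ExD_lip H.rho_pos H.rho_le hθ ha (near_of_last h1) (near_of_last hz1)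
  have q3 := hf.lipL H.rho_pos H.rho_le (hball z' h1) (hball z hz1)
  have q4 : |(Ex a z').re - (Ex a z).re| ≤ ‖Ex a z' - Ex a z‖ := by
    rw [← Complex.sub_re]; exact Complex.abs_re_le_norm _
  have q5 : (a + 7) * ‖z' - z‖ ≤ (a + 7) * δ := by
    apply mul_le_mul_of_nonneg_left _ (by positivity)
    linarith
  have q6 : θ * ‖z' - z‖ ≤ θ * δ := by
    apply mul_le_mul_of_nonneg_left _ hθ0
    linarith
  have hfin : δ * (2 * (a + 40 + θ)) = ε := by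
    rw [hδ]; field_simp
  have hδ0 : 0 < δ := hc
  rw [Real.dist_eq]
  have e : Real.log ‖site N a (θ / a ^ 2) (f N) 0‖ / N - (L z + (Ex a z).re) =
    (Real.log ‖site N a (θ / a ^ 2) (f N) 0‖ / N - (L z' + (Ex a z').re)) + (L z' - L z) +
      ((Ex a z').re - (Ex a z).re) := by ring
  rw [e]
  refine lt_of_le_of_lt ((abs_add_le _ _).trans (add_le_add_left (abs_add_le _ _) _)) ?_
  have m1 : 0 ≤ δ * a := mul_nonneg hδ0.le ha00
  have m2 : 0 ≤ δ * θ := mul_nonneg hδ0.le hθ0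
  rw [← hfin]
  have e3 : δ * (2 * (a + 40 + θ)) = 2 * (δ * a) + 80 * δ + 2 * (δ * θ) := by ring
  have e4 : ((a : ℝ) + 7) * δ = δ * a + 7 * δ := by ring
  have e5 : (θ : ℝ) * δ = δ * θ := by ring
  rw [e3]
  rw [e4] at q5
  rw [e5] at q6
  linarith

end Pool.Agent.Helper17.TG
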