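import Pool.Agent.Helper17.TG.StepL
import Pool.Agent.Helper17.TF.Chain

/-!
# Module LD: the tree of critical point equations and the theorem
-/

namespace Pool.Agent.Helper17.TG

open Complex Finset Filter Topology
open Pool.Agent.Helper9.TB Pool.Agent.Helper9.TF Pool.Agent.Helper9.TG
open Pool.Agent.Helper17.TF (ball_small mem_conj tends1 tends2 Ex G1 G2 gam_lip_t gam_lip_y
  gamy_lip_t norm_two_pi E2 gamy_conj gamt_conj gam_conj conj_Ex norm_conj_sub_quarter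
  norm_conj_sub_one_div)

theorem Big_wt {R D : ℕ} {t : PTree} (h : t.Big R D) : R ≤ t.wt.natAbs := by
  induction t with
  | leaf a => exact h
  | graft p c ihp _ => exact ihp h.1

theorem Big_deg {R D : ℕ} {t : PTree} (h : t.Big R D) : t.deg ≤ D := by
  cases t with
  | leaf a => exact Nat.zero_le _
  | graft p c => exact h.2.2

theorem wt_pos {w : ℤ} (h : 0 < w) : (w : ℂ) = (w.natAbs : ℂ) ∧ (w : ℝ) = (w.natAbs : ℝ) := by
  have h1 : w = (w.natAbs : ℤ) := by omega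
  constructor
  · conv_lhs => rw [h1]
    rw [Int.cast_natCast]
  · conv_lhs => rw [h1]
    rw [Int.cast_natCast]

theorem wt_neg {w : ℤ} (h : ¬ 0 < w) : (w : ℂ) = -(w.natAbs : ℂ) ∧ (w : ℝ) = -(w.natAbs : ℝ) := by
  have h1 : w = -(w.natAbs : ℤ) := by omega
  constructor
  · conv_lhs => rw [h1]
    rw [Int.cast_neg, Int.cast_natCast]
  · conv_lhs => rw [h1]
    rw [Int.cast_neg, Int.cast_natCast]

theorem norm_neg_sub_one_div (z : ℂ) (a : ℂ) : ‖-z - 1 / a‖ = ‖z - 1 / -a‖ := by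
  rw [← norm_neg]
  congr 1
  rw [div_neg]
  ring

theorem near_wt_small {ρ : ℝ} (hρ : 0 < ρ) (hρ1 : ρ ≤ 1 / 1000) {D θ : ℕ} {w : ℤ} (hθ : θ ≤ D)
    (ha : LargeW ρ D w.natAbs) {z : ℂ} (hz : ‖z - 1 / (w : ℂ)‖ ≤ 2 * (1 + θ) / (w : ℝ) ^ 2) :
    ‖z‖ ≤ ρ / 2 := by
  by_cases h : 0 < w
  · obtain ⟨h1, h2⟩ := wt_pos h
    rw [h1, h2] at hz
    exact nearD_half hρ hρ1 hθ ha hz
  · obtain ⟨h1, h2⟩ := wt_neg h
    rw [h1, h2, neg_sq] at hz
    rw [← norm_neg]
    refine nearD_half hρ hρ1 hθ ha ?_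
    rw [norm_neg_sub_one_div]
    exact hz

theorem gamy_neg (y t : ℂ) : gamy (-y) t = - gamy y t := by
  unfold gamy
  rw [sub_neg_eq_add, ← sub_eq_add_neg]
  ring

theorem gamt_neg (y t : ℂ) : gamt (-y) t = gamt y t := by
  unfold gamt
  rw [sub_neg_eq_add, ← sub_eq_add_neg]
  ring

theorem gam_neg (y t : ℂ) : gam (-y) t = gam y t := by
  unfold gam
  rw [sub_neg_eq_add, ← sub_eq_add_neg]
  ring

theorem norm_conj_sub_wt (z : ℂ) (w : ℤ) : ‖(starRingEnd ℂ) z - 1 / (w : ℂ)‖ = ‖z - 1 / (w : ℂ)‖ := by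
  rw [← Complex.norm_conj]
  congr 1
  rw [map_sub, Complex.conj_conj, map_div₀, map_one, map_intCast]

/-- complex conjugation of the critical point data -/
theorem TCrit_conj {ρ : ℝ} (hρ : 0 < ρ) (hρ1 : ρ ≤ 1 / 1000) {R D : ℕ}
    (hR : ∀ a : ℕ, R ≤ a → LargeW ρ D a) {s : ℤ} {t : PTree} {y σ E : ℂ}
    (h : TCrit s t y σ E) (hB : t.Big R D) (hy : ‖y‖ < 1 / 20) :
    TCrit (-s) t ((starRingEnd ℂ) y) ((starRingEnd ℂ) σ) ((starRingEnd ℂ) E) := by
  induction h with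
  | leaf s a y =>
    rw [map_zero]
    exact TCrit.leaf _ _ _
  | @graft s p c y σ E z τ F t hp hc hz ht site kern ihp ihc =>
    have hz2 : ‖z‖ < 1 / 20 := by
      have := near_wt_small hρ hρ1 (Big_deg hB.2.1) (hR _ (Big_wt hB.2.1)) hz
      linarith
    have ht2 : ‖t - 1 / 4‖ < 1 / 20 := by linarith
    have h1 := ihp hB.1 hy
    have h2 := ihc hB.2.1 hz2
    have h3 : ‖(starRingEnd ℂ) z - 1 / (c.wt : ℂ)‖ ≤ 2 * (1 + c.deg) / (c.wt : ℝ) ^ 2 := by
      rw [norm_conj_sub_wt]; exact hz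
    have h4 : ‖(starRingEnd ℂ) t - 1 / 4‖ ≤ 1 / 200 := by
      rw [norm_conj_sub_quarter]; exact ht
    have h5 : -((-s : ℤ) : ℂ) * (2 * Real.pi * I * (c.wt * (starRingEnd ℂ) z - 1)) +
        (starRingEnd ℂ) τ + gamy ((starRingEnd ℂ) z) ((starRingEnd ℂ) t) = 0 := by
      have h6 := congrArg (starRingEnd ℂ) site
      rw [gamy_conj hz2 ht2]
      simp only [map_add, map_mul, map_sub, map_neg, map_one, Complex.conj_ofReal,
        Complex.conj_I, map_intCast, map_ofNat, map_zero] at h6 ⊢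
      rw [Int.cast_neg]
      linear_combination h6
    have h6 : gamt ((starRingEnd ℂ) y) ((starRingEnd ℂ) t) +
        gamt ((starRingEnd ℂ) z) ((starRingEnd ℂ) t) = 0 := by
      rw [gamt_conj hy ht2, gamt_conj hz2 ht2, ← map_add, kern, map_zero]
    have h7 := TCrit.graft h1 h2 h3 h4 h5 h6
    rw [gamy_conj hy ht2, gam_conj hy ht2, gam_conj hz2 ht2, ← map_add] at h7
    have h8 : (starRingEnd ℂ) (E + F - s * (Real.pi * I * c.wt * z ^ 2 - 2 * Real.pi * I * z) +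
        gam y t + gam z t) = (starRingEnd ℂ) E + (starRingEnd ℂ) F - ((-s : ℤ) : ℂ) *
          (Real.pi * I * c.wt * (starRingEnd ℂ) z ^ 2 - 2 * Real.pi * I * (starRingEnd ℂ) z) +
          (starRingEnd ℂ) (gam y t) + (starRingEnd ℂ) (gam z t) := by
      simp only [map_add, map_mul, map_sub, map_pow, Complex.conj_ofReal,
        Complex.conj_I, map_intCast, map_ofNat, Int.cast_neg]
      ring
    rw [h8]
    exact h7

theorem ft_graft (N : ℕ) (p c : PTree) :
    ft N (.graft p c) = fun y => ft N p y * tc N c.wt (c.deg + 1) (ft N c) y := rfl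

theorem re_neg_conj_Ex (a : ℕ) (z : ℂ) :
    (-(Real.pi * I * a * ((starRingEnd ℂ) z) ^ 2 - 2 * Real.pi * I * ((starRingEnd ℂ) z))).re =
      (Ex a z).re := by
  have h := conj_Ex a z
  unfold Helper17.TF.Ex at h ⊢
  rw [← h, Complex.conj_re]

/-- the contribution of a child -/
theorem child_limit {ρ h0 e4 : ℝ} {D R0 : ℕ} (H : StepD ρ h0 e4 D R0) {R : ℕ} (hR0 : R0 ≤ R)
    (hR : ∀ a : ℕ, R ≤ a → LargeW ρ D a) {c : PTree} (hB : c.Big R D) {S : ℂ → ℂ} {L : ℂ → ℝ}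
    (hH : HLD ρ h0 e4 c.deg (fun N => ft N c) S L)
    (hT : ∀ w ∈ Metric.ball (0 : ℂ) ρ, ∃ E : ℂ, TCrit 1 c w (S w) E ∧ L w = E.re) :
    ∃ (T : ℂ → ℂ) (M : ℂ → ℝ), HLD ρ h0 e4 1 (fun N => tc N c.wt (c.deg + 1) (ft N c)) T M ∧
      (∀ᶠ N in atTop, DecayD ρ h0 (ρ ^ 2 / 8) N (tc N c.wt (c.deg + 1) (ft N c))) ∧
      ∀ w ∈ Metric.ball (0 : ℂ) ρ, ∃ z τ F t : ℂ, TCrit (-1) c z τ F ∧
        ‖z - 1 / (c.wt : ℂ)‖ ≤ 2 * (1 + c.deg) / (c.wt : ℝ) ^ 2 ∧ ‖t - 1 / 4‖ ≤ 1 / 200 ∧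
        -((1 : ℤ) : ℂ) * (2 * Real.pi * I * (c.wt * z - 1)) + τ + gamy z t = 0 ∧
        gamt w t + gamt z t = 0 ∧ T w = gamy w t ∧
        M w = (F - ((1 : ℤ) : ℂ) * (Real.pi * I * c.wt * z ^ 2 - 2 * Real.pi * I * z) +
          gam w t + gam z t).re := by
  have hdeg := Big_deg hB
  have ha := hR _ (Big_wt hB)
  have ha0 : R0 ≤ c.wt.natAbs := hR0.trans (Big_wt hB)
  have hcast : ((c.deg + 1 : ℕ) : ℝ) = 1 + (c.deg : ℝ) := by push_cast; ring
  by_cases hw0 : 0 < c.wt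
  · -- positive weight
    obtain ⟨e1, e2⟩ := wt_pos hw0
    obtain ⟨t', z', hsol, hdec, hHL'⟩ := HLD_step H hdeg ha0 ha hH
    have htc : ∀ N, tc N c.wt (c.deg + 1) (ft N c) =
        Helper9.TG.cj (nx N c.wt.natAbs ((1 + c.deg) / (c.wt.natAbs : ℝ) ^ 2) (ft N c)) := by
      intro N
      unfold tc
      rw [if_pos hw0, hcast]
    have hK := HLD.cj hHL'
    have h2 : (fun N => tc N c.wt (c.deg + 1) (ft N c)) = fun N =>
        Helper9.TG.cj (nx N c.wt.natAbs ((1 + c.deg) / (c.wt.natAbs : ℝ) ^ 2) (ft N c)) := funext htc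
    rw [← h2] at hK
    refine ⟨_, _, hK, ?_, ?_⟩
    · refine hdec.mono fun N h => ?_
      rw [htc]
      exact DecayD.cj h
    · intro w hw
      have hw' := mem_conj hw
      obtain ⟨k1, k2, k3, k4⟩ := hsol _ hw'
      have kz := nearD_ball H.rho_pos H.rho_le hdeg ha k2
      obtain ⟨F, p1, p2⟩ := hT _ kz
      have hz2 : ‖z' ((starRingEnd ℂ) w)‖ < 1 / 20 := by
        have := nearD_small H.rho_pos H.rho_le hdeg ha k2
        linarith
      have hw2 : ‖(starRingEnd ℂ) w‖ < 1 / 20 := by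
        have := ball_small H.rho_le hw'
        linarith
      have ht2 : ‖t' ((starRingEnd ℂ) w) - 1 / 4‖ < 1 / 20 := by linarith
      have p3 := TCrit_conj H.rho_pos H.rho_le hR p1 hB hz2
      set z := z' ((starRingEnd ℂ) w) with hz
      set t := t' ((starRingEnd ℂ) w) with ht
      have g1 := gamy_conj hw2 ht2
      have g2 := gam_conj hw2 ht2
      have g3 := gamt_conj hw2 ht2
      rw [Complex.conj_conj] at g1 g2 g3
      refine ⟨(starRingEnd ℂ) z, _, _, (starRingEnd ℂ) t, p3, ?_, ?_, ?_, ?_, ?_, ?_⟩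
      · rw [norm_conj_sub_wt, e1, e2]
        exact k2
      · rw [norm_conj_sub_quarter]
        linarith
      · rw [gamy_conj hz2 ht2, e1]
        have h9 := congrArg (starRingEnd ℂ) k4
        unfold Helper17.TF.G2 at h9
        simp only [map_add, map_mul, map_sub, Complex.conj_ofReal, Complex.conj_I,
          Complex.conj_natCast, map_ofNat, map_zero] at h9
        push_cast
        linear_combination h9
      · rw [g3, gamt_conj hz2 ht2, ← map_add]
        have h9 : gamt ((starRingEnd ℂ) w) t + gamt z t = 0 := k3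
        rw [h9, map_zero]
      · rw [g1]
        rfl
      · rw [g2, gam_conj hz2 ht2, e1]
        simp only [Int.cast_one, one_mul]
        have h9 := re_neg_conj_Ex c.wt.natAbs z
        rw [Complex.neg_re] at h9
        simp only [Complex.add_re, Complex.sub_re, Complex.conj_re] at h9 ⊢
        linarith
  · -- negative weight
    obtain ⟨e1, e2⟩ := wt_neg hw0
    have hH' := HLD.cj hH
    obtain ⟨t', z', hsol, hdec, hHL'⟩ := HLD_step H hdeg ha0 ha hH'
    have htc : ∀ N, tc N c.wt (c.deg + 1) (ft N c) =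
        nx N c.wt.natAbs ((1 + c.deg) / (c.wt.natAbs : ℝ) ^ 2) (Helper9.TG.cj (ft N c)) := by
      intro N
      unfold tc
      rw [if_neg hw0, hcast]
    have h2 : (fun N => tc N c.wt (c.deg + 1) (ft N c)) = fun N =>
        nx N c.wt.natAbs ((1 + c.deg) / (c.wt.natAbs : ℝ) ^ 2) (Helper9.TG.cj (ft N c)) := funext htc
    rw [← h2] at hHL'
    refine ⟨_, _, hHL', ?_, ?_⟩
    · refine hdec.mono fun N h => ?_
      rw [htc]
      exact h
    · intro w hw
      obtain ⟨k1, k2, k3, k4⟩ := hsol _ hw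
      have kz := nearD_ball H.rho_pos H.rho_le hdeg ha k2
      set ζ := z' w with hζ
      set t := t' w with ht
      have kz' : -ζ ∈ Metric.ball (0 : ℂ) ρ := by
        rw [mem_ball_zero_iff, norm_neg]
        rwa [mem_ball_zero_iff] at kz
      obtain ⟨F, p1, p2⟩ := hT _ (mem_conj kz')
      have hz2 : ‖(starRingEnd ℂ) (-ζ)‖ < 1 / 20 := by
        have := nearD_small H.rho_pos H.rho_le hdeg ha k2
        rw [Complex.norm_conj, norm_neg]
        linarith
      have p3 := TCrit_conj H.rho_pos H.rho_le hR p1 hB hz2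
      rw [Complex.conj_conj] at p3
      obtain ⟨o1, o2⟩ := hH'.odd kz
      have o1' : (starRingEnd ℂ) (S ((starRingEnd ℂ) (-ζ))) = - Helper9.TG.cj S ζ := o1
      have o2' : L ((starRingEnd ℂ) (-ζ)) = L ((starRingEnd ℂ) ζ) := o2
      rw [o1'] at p3
      refine ⟨-ζ, _, _, t, p3, ?_, ?_, ?_, ?_, rfl, ?_⟩
      · rw [e1, e2, neg_sq, norm_neg_sub_one_div, neg_neg]
        exact k2
      · linarith
      · rw [gamy_neg, e1]
        unfold Helper17.TF.G2 at k4
        push_cast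
        linear_combination -k4
      · rw [gamt_neg]
        exact k3
      · rw [gam_neg, e1]
        simp only [Int.cast_one, one_mul]
        have h9 : (starRingEnd ℂ) F - (Real.pi * I * -(c.wt.natAbs : ℂ) * (-ζ) ^ 2 -
            2 * Real.pi * I * -ζ) = (starRingEnd ℂ) F + Ex c.wt.natAbs ζ := by
          unfold Helper17.TF.Ex; ring
        rw [h9]
        simp only [Complex.add_re, Complex.conj_re]
        linarith

/-- the limits for the function of a tree -/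
theorem tree_main {ρ h0 e4 : ℝ} {D R0 : ℕ} (H : StepD ρ h0 e4 D R0) {R : ℕ} (hR0 : R0 ≤ R)
    (hR : ∀ a : ℕ, R ≤ a → LargeW ρ D a) (t : PTree) (hB : t.Big R D) :
    ∃ (S : ℂ → ℂ) (L : ℂ → ℝ), HLD ρ h0 e4 t.deg (fun N => ft N t) S L ∧
      (1 ≤ t.deg → ∀ᶠ N in atTop, DecayD ρ h0 (ρ ^ 2 / 12) N (ft N t)) ∧
      ∀ w ∈ Metric.ball (0 : ℂ) ρ, ∃ E : ℂ, TCrit 1 t w (S w) E ∧ L w = E.re := by
  induction t with
  | leaf a =>
    refine ⟨fun _ => 0, fun _ => 0, HLD_zero, fun h => ?_, fun w _ => ⟨0, TCrit.leaf _ _ _, by simp⟩⟩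
    exact absurd h (by simp [PTree.deg])
  | graft p c ihp ihc =>
    obtain ⟨Sp, Lp, hp, _, hTp⟩ := ihp hB.1
    obtain ⟨Sc, Lc, hc, _, hTc⟩ := ihc hB.2.1
    obtain ⟨T, M, hTM, hdec, hch⟩ := child_limit H hR0 hR hB.2.1 hc hTc
    refine ⟨fun y => Sp y + T y, fun y => Lp y + M y, ?_, ?_, ?_⟩
    · exact HLD.mul hp hTM
    · intro _
      filter_upwards [hp.good, hdec] with N h1 h2
      refine DecayD.weaken ?_ (DecayD.mul h1 h2)
      have h3 : (p.deg : ℝ) ≤ D := by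
        have : p.deg ≤ D := by have := hB.2.2; omega
        exact_mod_cast this
      have h4 : (p.deg : ℝ) * e4 ≤ D * e4 := mul_le_mul_of_nonneg_right h3 H.e4_pos.le
      have h5 := H.e4_le
      have h6 : 0 < ρ ^ 2 := by have := H.rho_pos; positivity
      linarith
    · intro w hw
      obtain ⟨E, p1, p2⟩ := hTp w hw
      obtain ⟨z, τ, F, t, q1, q2, q3, q4, q5, q6, q7⟩ := hch w hw
      have h7 := TCrit.graft p1 q1 q2 q3 q4 q5
      rw [← q6] at h7
      refine ⟨_, h7, ?_⟩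
      simp only [p2, q7]
      rw [← Complex.add_re]
      congr 1
      ring

/-- MODULE LD -/
theorem tree_limit {ρ h0 e4 : ℝ} {D R0 : ℕ} (H : StepD ρ h0 e4 D R0) : ∃ R : ℕ, ∀ t : PTree,
    t.Big R D → 1 ≤ t.deg → ∃ y σ E : ℂ, TCrit 1 t y σ E ∧
      ‖y - 1 / (t.wt : ℂ)‖ ≤ 2 * t.deg / (t.wt : ℝ) ^ 2 ∧
      2 * Real.pi * I * (t.wt * y - 1) + σ = 0 ∧
      Filter.Tendsto (fun N : ℕ => Real.log ‖rt N t‖ / N) Filter.atTop
        (nhds (E + Real.pi * I * t.wt * y ^ 2 - 2 * Real.pi * I * y).re) := by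
  refine ⟨max R0 (Nat.ceil (8 * (1 + D) / ρ)), fun t hB hd => ?_⟩
  set R := max R0 (Nat.ceil (8 * (1 + D) / ρ)) with hRdef
  have hR0 : R0 ≤ R := le_max_left _ _
  have hR : ∀ a : ℕ, R ≤ a → LargeW ρ D a := fun a ha => by
    have h1 : Nat.ceil (8 * (1 + D) / ρ) ≤ a := (le_max_right _ _).trans ha
    exact (Nat.le_ceil _).trans (by exact_mod_cast h1)
  obtain ⟨S, L, hH, hD, hT⟩ := tree_main H hR0 hR t hB
  have hdeg := Big_deg hB
  have ha := hR _ (Big_wt hB)
  have ha0 : R0 ≤ t.wt.natAbs := hR0.trans (Big_wt hB)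
  by_cases hw0 : 0 < t.wt
  · obtain ⟨e1, e2⟩ := wt_pos hw0
    obtain ⟨z, hz1, hz2, hz3⟩ := HLD_last H hd hdeg ha0 ha hH (hD hd)
    have hzb := nearD_ball H.rho_pos H.rho_le hdeg ha (near_of_last hz1)
    obtain ⟨E, p1, p2⟩ := hT z hzb
    refine ⟨z, S z, E, p1, ?_, ?_, ?_⟩
    · rw [e1, e2]; exact hz1
    · rw [e1]; linear_combination hz2
    · have h1 : (fun N : ℕ => Real.log ‖rt N t‖ / N) =
          fun N : ℕ => Real.log ‖site N t.wt.natAbs (t.deg / (t.wt.natAbs : ℝ) ^ 2) (ft N t) 0‖ / N := by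
        funext N
        unfold rt
        rw [if_pos hw0]
      rw [h1, e1]
      have h2 : (E + Real.pi * I * (t.wt.natAbs : ℂ) * z ^ 2 - 2 * Real.pi * I * z).re =
          L z + (Ex t.wt.natAbs z).re := by
        rw [p2, ← Complex.add_re]
        congr 1
        unfold Helper17.TF.Ex
        ring
      rw [h2]
      exact hz3
  · obtain ⟨e1, e2⟩ := wt_neg hw0
    obtain ⟨ζ, hz1, hz2, hz3⟩ := HLD_last H hd hdeg ha0 ha hH.cj ((hD hd).mono fun N h => DecayD.cj h)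
    have hzb := nearD_ball H.rho_pos H.rho_le hdeg ha (near_of_last hz1)
    have hzb' := mem_conj hzb
    have hyb : -(starRingEnd ℂ) ζ ∈ Metric.ball (0 : ℂ) ρ := by
      rw [mem_ball_zero_iff, norm_neg]
      rwa [mem_ball_zero_iff] at hzb'
    obtain ⟨E, p1, p2⟩ := hT _ hyb
    obtain ⟨o1, o2⟩ := hH.odd hzb'
    refine ⟨-(starRingEnd ℂ) ζ, _, E, p1, ?_, ?_, ?_⟩
    · rw [e1, e2, neg_sq, norm_neg_sub_one_div, neg_neg, norm_conj_sub_one_div]
      exact hz1
    · rw [e1, o1]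
      have h9 := congrArg (starRingEnd ℂ) hz2
      unfold Helper9.TG.cj at h9
      simp only [map_add, map_mul, map_sub, Complex.conj_ofReal, Complex.conj_I,
        Complex.conj_natCast, map_ofNat, map_zero, Complex.conj_conj] at h9
      linear_combination -h9
    · have h1 : (fun N : ℕ => Real.log ‖rt N t‖ / N) =
          fun N : ℕ => Real.log ‖site N t.wt.natAbs (t.deg / (t.wt.natAbs : ℝ) ^ 2)
            (Helper9.TG.cj (ft N t)) 0‖ / N := by
        funext N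
        unfold rt
        rw [if_neg hw0]
      rw [h1, e1]
      have h2 : (E + Real.pi * I * -(t.wt.natAbs : ℂ) * (-(starRingEnd ℂ) ζ) ^ 2 -
          2 * Real.pi * I * -(starRingEnd ℂ) ζ).re =
          L ((starRingEnd ℂ) ζ) + (Ex t.wt.natAbs ζ).re := by
        rw [← o2, p2, ← re_neg_conj_Ex, ← Complex.add_re]
        congr 1
        ring
      rw [h2]
      exact hz3

end Pool.Agent.Helper17.TG
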